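import Pool.Agent.SZT.StmtsA

set_option autoImplicit false

/-! Row FVL of squad SZT: values of `f` at `x` in terms of the nearest root. -/

namespace Pool.Agent.SZT.H48

open Polynomial
open Pool.Agent.MNT (QU vC)

theorem fvl : FvlStmt := by
  intro E _ v c₀ hv θ hinj x i hx hnear
  have hpos : ∀ k, 0 < v (x - θ k) := fun k => v.pos (sub_ne_zero.2 (hx k))
  have hval : Real.log (v ((∏ k, (X - C (θ k))).eval x)) = ∑ k, Real.log (v (x - θ k)) := by
    rw [eval_prod, map_prod, Real.log_prod (fun k _ => by simpa using (hpos k).ne')]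
    simp
  have hlow : ∀ k, Real.log (v (x - θ i)) ≤ Real.log (v (x - θ k)) := fun k =>
    Real.log_le_log (hpos i) (hnear k)
  have hfar : ∀ k, Real.log (v (θ i - θ k)) - c₀ ≤ Real.log (v (x - θ k)) ∨ θ i = θ k := by
    intro k
    by_cases h : θ i = θ k
    · exact Or.inr h
    · left
      have h1 : v (θ i - θ k) ≤ Real.exp c₀ * v (x - θ k) := by
        have h2 := hv.2 (θ i - x) (x - θ k)
        have h3 : θ i - x + (x - θ k) = θ i - θ k := by ring
        rw [h3, v.map_sub (θ i) x, max_eq_right (hnear k)] at h2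
        exact h2
      have h4 : 0 < v (θ i - θ k) := v.pos (sub_ne_zero.2 h)
      have h5 := Real.log_le_log h4 h1
      rw [Real.log_mul (Real.exp_pos _).ne' (hpos k).ne', Real.log_exp] at h5
      linarith
  have hfar' : ∀ k, k ≠ i → Real.log (v (θ i - θ k)) - c₀ ≤ Real.log (v (x - θ k)) := by
    intro k hk
    rcases hfar k with h | h
    · exact h
    · exact absurd (hinj h).symm hk
  rw [hval]
  refine ⟨?_, ?_, ?_⟩
  · have h1 : ∑ _k : Fin 5, Real.log (v (x - θ i)) ≤ ∑ k, Real.log (v (x - θ k)) :=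
      Finset.sum_le_sum (fun k _ => hlow k)
    simpa using h1
  · rw [← Finset.add_sum_erase Finset.univ (fun k => Real.log (v (x - θ k))) (Finset.mem_univ i)]
    exact add_le_add le_rfl (Finset.sum_le_sum
      (fun k hk => hfar' k (Finset.ne_of_mem_erase hk)))
  · intro k₀ hk₀
    rw [← Finset.add_sum_erase Finset.univ (fun k => Real.log (v (x - θ k))) (Finset.mem_univ i),
      ← Finset.add_sum_erase (Finset.univ.erase i) (fun k => Real.log (v (x - θ k)))
        (Finset.mem_erase.2 ⟨hk₀, Finset.mem_univ _⟩)]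
    have h1 : ∑ k ∈ (Finset.univ.erase i).erase k₀, (Real.log (v (θ i - θ k)) - c₀) ≤
        ∑ k ∈ (Finset.univ.erase i).erase k₀, Real.log (v (x - θ k)) :=
      Finset.sum_le_sum (fun k hk => hfar' k
        (Finset.ne_of_mem_erase (Finset.mem_of_mem_erase hk)))
    have h2 := hlow k₀
    linarith

end Pool.Agent.SZT.H48
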